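import Pool.Agent.helper83.SB.Spec

/-!
# MP_d2d7b9_gt, bridge (prefix sb:), SHL: the shell measures
-/

open scoped Pointwise ContDiff
open MeasureTheory Set Filter Topology

namespace Pool.Agent.helper83.SB

open Pool.Agent.helper83.SC

theorem SHL_of (hPRJ : PRJ_stmt) (hDIR : DIR_stmt) : SHL_stmt := by
  intro n K hK ε
  obtain ⟨hn1, -, hn3, hn4⟩ := hPRJ hK
  have hcd : Continuous fun z : E n => Metric.infDist z K := Metric.continuous_infDist_pt K
  have hm : MeasurableSet (shell K ε) := by
    have h1 : MeasurableSet {z : E n | 0 < Metric.infDist z K} := measurableSet_lt measurable_const hcd.measurable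
    have h2 : MeasurableSet {z : E n | Metric.infDist z K ≤ ε} := measurableSet_le hcd.measurable measurable_const
    exact h1.inter h2
  obtain ⟨R, hR⟩ := hK.1.isBounded.subset_closedBall (0 : E n)
  have hfin : volume (shell K ε) < ⊤ := by
    refine lt_of_le_of_lt (measure_mono (t := Metric.closedBall (0 : E n) (ε + R)) ?_) measure_closedBall_lt_top
    intro z hz
    have h1 := (hn1 z).2
    have h2 := mem_closedBall_zero_iff.1 (hR (hn1 z).1)
    have h3 : dist z (nst K z) ≤ ε := h1.trans_le hz.2
    rw [mem_closedBall_zero_iff]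
    calc ‖z‖ = ‖(z - nst K z) + nst K z‖ := by rw [sub_add_cancel]
      _ ≤ ‖z - nst K z‖ + ‖nst K z‖ := norm_add_le _ _
      _ ≤ ε + R := by rw [dist_eq_norm] at h3; linarith
  have hdir : Measurable (dir K) := by
    have h1 : Measurable fun z : E n => z - nst K z := measurable_id.sub hn4.measurable
    exact (h1.norm.inv).smul h1
  have hmap : ∀ U : Set (E n), MeasurableSet U → rho K ε U = volume ((dir K) ⁻¹' U ∩ shell K ε) := by
    intro U hU
    unfold rho
    rw [Measure.map_apply hdir hU, Measure.restrict_apply (hdir hU)]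
  refine ⟨hm, hfin, hdir, ⟨?_, ?_⟩, ?_⟩
  · constructor
    rw [hmap univ MeasurableSet.univ, preimage_univ, univ_inter]
    exact hfin
  · rw [hmap _ (Metric.isClosed_sphere.measurableSet.compl)]
    have : (dir K) ⁻¹' (Metric.sphere (0 : E n) 1)ᶜ ∩ shell K ε = ∅ := by
      refine eq_empty_of_forall_notMem fun z hz => hz.1 ?_
      rw [mem_sphere_zero_iff_norm]
      exact (hDIR hK z hz.2.1).1
    rw [this, measure_empty]
  · intro U hU
    rw [hmap U hU]
    congr 1
    ext y
    constructor
    · rintro ⟨h1, h2, h3⟩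
      exact ⟨h2, h3, nst K y, (hn1 y).1, (hn1 y).2, h1⟩
    · rintro ⟨h2, h3, x, hx, hxd, hxU⟩
      refine ⟨?_, h2, h3⟩
      have := hn3 y x hx hxd
      subst this
      exact hxU

end Pool.Agent.helper83.SB
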